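import Pool.Agent.TH812.GV2.Global

/-!
The local height inequality at the places at which the derivations are regular in the logarithmic
sense, without loss.
-/

set_option autoImplicit false

open MvPolynomial FF Pool.Agent.W603.LV Pool.Agent.W603.PV Pool.Agent.TH145.GH

namespace Pool.Agent.H70LB

open Pool.Agent.TH812.GV Pool.Agent.TH812.GV2

variable {k K : Type} [Field k] [Field K] [Algebra k K] {n : ℕ} {α : Type}
  {F : α → MvPolynomial (Fin (n + 1)) K} {d : α → ℕ}
    {D : α → (Fin (n + 1) →₀ ℕ) → Derivation ℤ K K} {ep : α → (Fin (n + 1) →₀ ℕ) → ℕ}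

open Classical in
/-- The local inequality. -/
theorem local_log [Fintype α] (hom : ∀ a, (F a).IsHomogeneous (d a)) (dual : DualS F d D ep)
    (P : Place k K) (hlog : ∀ a (I : Fin (n + 1) →₀ ℕ), I.degree = d a → ∀ f : K, f ≠ 0 →
      Ge P (P.ord f) (D a I f)) {x : Fin (n + 1) → K} {l0 : Fin (n + 1)}
    (hx : x l0 ≠ 0) (v : Fin (n + 1) → Gn α n)
    (hdet : (Matrix.of fun t => gw d D x l0 (v t)).det ≠ 0)
    (hv : ∀ g (c : Fin (n + 1) → K), gw d D x l0 g = ∑ s, c s • gw d D x l0 (v s) →
      ∀ s, c s ≠ 0 → (v s).lev ≤ g.lev)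
    (S : Finset α) (hSv : ∀ a ∈ S, ∀ t, v t ≠ Gn.v a) (hS0 : ∀ a ∈ S, eval x (F a) ≠ 0) :
    (∑ t, (v t).wt d) * pord P x +
      ∑ a ∈ S, (P.ord (eval x (F a)) - d a * pord P x) ≤
      P.ord (Matrix.of fun t => gw d D x l0 (v t)).det := by
  have hx0 : x ≠ 0 := by
    rintro rfl
    exact hx rfl
  have hgl : ∀ (a : α) (I : Fin (n + 1) →₀ ℕ), I.degree = d a → ∀ (g : ℤ) (f : K), Ge P g f →
      Ge P g (D a I f) := by
    intro a I hI g f hf
    by_cases h0 : f = 0
    · rw [h0, map_zero]; exact Ge.zero
    · exact (hlog a I hI f h0).mono (hf.resolve_left h0)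
  have hcg : ∀ {g : ℤ} {z w : K}, z = w → Ge P g z → Ge P g w := fun h h' => h ▸ h'
  obtain ⟨lam, x', hlam, hlamP, hxx, hx', l', hx1⟩ := exists_scaled P hx0
  have hxx' : x' = lam⁻¹ • x := by
    rw [hxx, smul_smul, inv_mul_cancel₀ hlam, one_smul]
  obtain ⟨b, hb⟩ : ∃ b : Matrix (Fin (n + 1)) (Fin (n + 1)) K,
    b = Matrix.of fun t => gw d D x l0 (v t) := ⟨_, rfl⟩
  have hbt : ∀ t, b t = gw d D x l0 (v t) := fun t => by rw [hb]; rfl
  have hdet' : b.det ≠ 0 := by rw [hb]; exact hdet
  have hle : ∀ L, Hs d D x l0 L ≤ Submodule.span K (b ''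
      (Finset.univ.filter fun t => (v t).lev ≤ L : Finset (Fin (n + 1)))) := by
    intro L
    have h1 := Hs_le hdet hv L
    have h2 : (fun t => gw d D x l0 (v t)) = b := by
      funext t
      rw [hbt]
    rwa [h2] at h1
  -- the derivatives of the scaled point
  have hDx : ∀ (a : α) (I : Fin (n + 1) →₀ ℕ), (fun l => D a I (x' l)) =
      lam⁻¹ • (fun l => D a I (x l)) + D a I lam⁻¹ • x := by
    intro a I
    funext l
    rw [hxx', Pi.smul_apply, smul_eq_mul, (D a I).leibniz]
    simp only [Pi.add_apply, Pi.smul_apply, smul_eq_mul]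
    ring
  -- the local rows
  obtain ⟨br, hbrx, hbrd, hbrv, hbre⟩ : ∃ br : Gn α n → Fin (n + 1) → K,
      br Gn.x = x' ∧ (∀ a M i j, br (Gn.de a M i j) = gw d D x' l0 (Gn.de a M i j)) ∧
      (∀ a, br (Gn.v a) = fun l => D a (Finsupp.single l' (d a)) (x' l)) ∧
      ∀ i, br (Gn.e i) = Pi.single i 1 :=
    ⟨fun g => match g with
      | .x => x'
      | .de a M i j => gw d D x' l0 (Gn.de a M i j)
      | .v a => fun l => D a (Finsupp.single l' (d a)) (x' l)
      | .e i => Pi.single i 1, rfl, fun _ _ _ _ => rfl, fun _ => rfl, fun _ => rfl⟩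
  have htri : ∀ g : Gn α n, ∃ y, br g = lam ^ (-g.wt d) • gw d D x l0 g + y ∧
      y ∈ Submodule.span K (b ''
        (Finset.univ.filter fun t => (v t).lev < g.lev : Finset (Fin (n + 1)))) := by
    intro g
    rcases g with _ | ⟨a, M, i, j⟩ | a | i
    · refine ⟨0, ?_, zero_mem _⟩
      rw [hbrx, hxx', add_zero]
      simp only [Gn.wt, zpow_neg_one]
      rfl
    · by_cases hM : M.degree + 1 = d a
      · refine ⟨(lam⁻¹ * (x j * D a (M + Finsupp.single i 1) lam⁻¹ -
          x i * D a (M + Finsupp.single j 1) lam⁻¹)) • x, ?_, ?_⟩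
        · rw [hbrd]
          have e2 : lam ^ (-(Gn.de a M i j : Gn α n).wt d) = lam⁻¹ * lam⁻¹ := by
            have : -(Gn.de a M i j : Gn α n).wt d = -1 + -1 := by simp [Gn.wt]
            rw [this, zpow_add₀ hlam, zpow_neg_one]
          rw [e2]
          funext l
          simp only [gw, if_pos hM, Pi.add_apply, Pi.smul_apply, smul_eq_mul]
          have e3 := congrFun (hDx a (M + Finsupp.single i 1)) l
          have e4 := congrFun (hDx a (M + Finsupp.single j 1)) l
          simp only [Pi.add_apply, Pi.smul_apply, smul_eq_mul] at e3 e4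
          rw [e3, e4, hxx']
          simp only [Pi.smul_apply, smul_eq_mul]
          ring
        · refine Submodule.smul_mem _ _ (Submodule.span_mono ?_ (hle 0 (x_mem 0)))
          refine Set.image_mono fun t ht => ?_
          rw [Finset.mem_coe, Finset.mem_filter] at ht ⊢
          exact ⟨ht.1, Nat.lt_succ_of_le ht.2⟩
      · refine ⟨0, ?_, zero_mem _⟩
        rw [hbrd, de_zero hM, de_zero hM, smul_zero, add_zero]
    · refine ⟨br (Gn.v a) - lam ^ (-(Gn.v a : Gn α n).wt d) • gw d D x l0 (Gn.v a),
        by rw [add_sub_cancel], ?_⟩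
      have h1 := D_mem (D := D) (x := x) hx a _ (Finsupp.single l' (d a))
        (by rw [Finsupp.degree_single]) rfl
      have h2 : br (Gn.v a) - lam ^ (-(Gn.v a : Gn α n).wt d) • gw d D x l0 (Gn.v a) =
          lam⁻¹ • ((fun l => D a (Finsupp.single l' (d a)) (x l)) -
            mon x (Finsupp.single l' (d a)) • gw d D x l0 (Gn.v a)) +
            D a (Finsupp.single l' (d a)) lam⁻¹ • x := by
        rw [hbrv, hDx, mon_single]
        have e1 : x l' = lam := by
          rw [hxx, Pi.smul_apply, hx1, smul_eq_mul, mul_one]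
        have e2 : lam ^ (-(Gn.v a : Gn α n).wt d) = lam⁻¹ * lam ^ d a := by
          have : -(Gn.v a : Gn α n).wt d = -1 + (d a : ℤ) := by simp only [Gn.wt]; ring
          rw [this, zpow_add₀ hlam, zpow_neg_one, zpow_natCast]
        rw [e1, e2, smul_sub, smul_smul]
        abel
      have h3 : br (Gn.v a) - lam ^ (-(Gn.v a : Gn α n).wt d) • gw d D x l0 (Gn.v a) ∈
          Hs d D x l0 1 := by
        rw [h2]
        exact Submodule.add_mem _ (Submodule.smul_mem _ _ h1) (Submodule.smul_mem _ _ (x_mem 1))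
      refine Submodule.span_mono ?_ (hle 1 h3)
      refine Set.image_mono fun t ht => ?_
      rw [Finset.mem_coe, Finset.mem_filter] at ht ⊢
      exact ⟨ht.1, Nat.lt_succ_of_le ht.2⟩
    · refine ⟨0, ?_, zero_mem _⟩
      rw [hbre, add_zero]
      simp only [Gn.wt, neg_zero, zpow_zero, one_smul]
      rfl
  choose y hy hyS using htri
  choose c hc hyc using fun t => coef_of_span (hyS (v t))
  obtain ⟨b', hb'⟩ : ∃ b' : Matrix (Fin (n + 1)) (Fin (n + 1)) K,
    b' = Matrix.of fun t => br (v t) := ⟨_, rfl⟩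
  have hb't : ∀ t, b' t = br (v t) := fun t => by rw [hb']; rfl
  have hdet2 : b'.det = (∏ t, lam ^ (-(v t).wt d)) * b.det := by
    refine det_tri b b' (fun t => (v t).lev) _ c (fun t s hts => ?_) fun t => ?_
    · exact (Finset.mem_filter.1 (hc t s hts)).2
    · rw [hb't, hy, hyc, hbt]
  rw [prod_zpow_sum hlam, Finset.sum_neg_distrib] at hdet2
  have hdet3 : b'.det ≠ 0 := by
    rw [hdet2]
    exact mul_ne_zero (zpow_ne_zero _ hlam) hdet'
  obtain ⟨T, hTd⟩ : ∃ T : Finset (Fin (n + 1)), T = Finset.univ.filter fun t => (v t).lev ≤ 2 :=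
    ⟨_, rfl⟩
  have hspan : Submodule.span K (b' '' T) = Submodule.span K (b '' T) := by
    refine span_eq_of_le hdet' hdet3 T fun t ht => ?_
    rw [hb't, hy]
    refine Submodule.add_mem _ (Submodule.smul_mem _ _ (Submodule.subset_span
      ⟨t, ht, hbt t⟩)) (Submodule.span_mono ?_ (hyS (v t)))
    refine Set.image_mono fun s hs => ?_
    rw [hTd] at ht ⊢
    rw [Finset.mem_coe, Finset.mem_filter] at hs ⊢
    rw [Finset.mem_filter] at ht
    exact ⟨hs.1, hs.2.le.trans ht.2⟩
  obtain ⟨q, hq⟩ : ∃ q : ℤ, q = 0 := ⟨0, rfl⟩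
  have hDge : ∀ (a : α) (I : Fin (n + 1) →₀ ℕ), I.degree = d a → ∀ l, Ge P (-q)
      (D a I (x' l)) := fun a I hI l => (hgl a I hI 0 _ (hx' l)).mono (by omega)
  have hDf : ∀ (a c : α) (I : Fin (n + 1) →₀ ℕ), I.degree = d a →
      Ge P (P.ord (eval x' (F c)) + 1 - 1 - q) (D a I (eval x' (F c))) := fun a c I hI =>
    (hgl a I hI _ _ (Or.inr le_rfl)).mono (by omega)
  have hff : ∀ c : α, Ge P (P.ord (eval x' (F c)) + 1 - 1 - q) (eval x' (F c)) := fun c =>
    Or.inr (by omega)
  have key := exch P (fun a => dL (F a) x') (fun a l => D a (Finsupp.single l' (d a)) (x' l))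
    (fun a => P.ord (eval x' (F a)) + 1) (q := q) T S b' hdet3
    (fun t ht l => by
      rw [hb't]
      rw [hTd, Finset.mem_filter] at ht
      obtain ⟨-, ht⟩ := ht
      rcases hvt : v t with _ | ⟨a, M, i, j⟩ | a | i
      · rw [hbrx]; exact (hx' l).mono (by omega)
      · rw [hbrd]
        by_cases hM : M.degree + 1 = d a
        · simp only [gw, if_pos hM]
          refine Ge.mono (by omega : -q ≤ 0 + -q) (Ge.sub ?_ ?_)
          · exact (hx' _).mul (hDge _ _ (by rw [map_add, Finsupp.degree_single, hM]) l)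
          · exact (hx' _).mul (hDge _ _ (by rw [map_add, Finsupp.degree_single, hM]) l)
        · rw [de_zero hM]; exact Ge.zero
      · rw [hbrv]; exact hDge _ _ (by rw [Finsupp.degree_single]) l
      · rw [hvt] at ht
        exact absurd ht (by simp [Gn.lev]))
    (fun t ht l => by
      rw [hb't]
      rw [hTd, Finset.mem_filter, not_and] at ht
      have ht := ht (Finset.mem_univ _)
      rcases hvt : v t with _ | ⟨a, M, i, j⟩ | a | i
      · rw [hvt] at ht
        exact absurd (by simp [Gn.lev]) ht
      · rw [hvt] at ht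
        exact absurd (by simp [Gn.lev]) ht
      · rw [hvt] at ht
        exact absurd (by simp [Gn.lev]) ht
      · rw [hbre]
        by_cases hl : l = i
        · rw [hl, Pi.single_eq_same]; exact Ge.one
        · rw [Pi.single_eq_of_ne hl]; exact Ge.zero)
    (fun a _ l => hDge _ _ (by rw [Finsupp.degree_single]) l)
    (fun a _ => by
      apply coef_of_span
      rw [hspan, hTd]
      refine hle 2 ?_
      rw [hDx]
      refine Submodule.add_mem _ (Submodule.smul_mem _ _ ?_) (Submodule.smul_mem _ _ (x_mem 2))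
      have h1 := D_mem (D := D) (x := x) hx a _ (Finsupp.single l' (d a))
        (by rw [Finsupp.degree_single]) rfl
      have h2 := Submodule.add_mem _ (Hs_mono (by norm_num : 1 ≤ 2) h1)
        (Submodule.smul_mem _ (mon x (Finsupp.single l' (d a))) (gw_mem (d := d) (D := D)
          (x := x) (l0 := l0) (Gn.v a)))
      rwa [sub_add_cancel] at h2)
    (fun a ha t ht => by
      rw [hb't]
      rw [hTd, Finset.mem_filter] at ht
      obtain ⟨-, ht⟩ := ht
      have hne := hSv a ha t
      rcases hvt : v t with _ | ⟨c, M, i, j⟩ | c | i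
      · rw [hbrx, dL_x hom]
        have := (Ge.natCast (P := P) (d a)).mul (hff a)
        rwa [zero_add] at this
      · rw [hbrd]
        by_cases hM : M.degree + 1 = d c
        · rw [dL_de hom dual c a hM]
          have hI : ∀ i, (M + Finsupp.single i 1).degree = d c := fun i => by
            rw [map_add, Finsupp.degree_single, hM]
          refine Ge.add (Ge.sub ?_ ?_) ?_
          · have := (hx' j).mul (hDf c a _ (hI i))
            rwa [zero_add] at this
          · have := (hx' i).mul (hDf c a _ (hI j))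
            rwa [zero_add] at this
          · split_ifs
            · have h1 : Ge P 0 (x' j * (ep c (M + Finsupp.single i 1) : K) -
                  x' i * (ep c (M + Finsupp.single j 1) : K)) := by
                refine Ge.sub ?_ ?_
                · have := (hx' j).mul (Ge.natCast (P := P) (ep c (M + Finsupp.single i 1)))
                  rwa [zero_add] at this
                · have := (hx' i).mul (Ge.natCast (P := P) (ep c (M + Finsupp.single j 1)))
                  rwa [zero_add] at this
              have := h1.mul (hff a)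
              rwa [zero_add] at this
            · exact Ge.zero
        · rw [de_zero hM, map_zero]; exact Ge.zero
      · rw [hbrv]
        rw [dL_D hom dual x' c a (by rw [Finsupp.degree_single]), if_neg, sub_zero]
        · exact hDf c a _ (by rw [Finsupp.degree_single])
        · rintro rfl
          exact hne hvt
      · rw [hvt] at ht
        exact absurd ht (by simp [Gn.lev]))
    (fun a _ a' _ haa => by
      rw [dL_D hom dual x' a' a (by rw [Finsupp.degree_single]), if_neg haa.symm, sub_zero]
      exact hDf a' a _ (by rw [Finsupp.degree_single]))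
    (fun a _ => by
      rw [dL_D hom dual x' a a (by rw [Finsupp.degree_single]), if_pos rfl, mon_single, hx1,
        one_pow]
      have h1 := (hDf a a (Finsupp.single l' (d a)) (by rw [Finsupp.degree_single])).add
        (((Ge.natCast (P := P) (ep a (Finsupp.single l' (d a)))).mul (hff a)).mono
          (by omega : P.ord (eval x' (F a)) + 1 - 1 - q ≤
            0 + (P.ord (eval x' (F a)) + 1 - 1 - q)))
      exact hcg (by ring) h1)
  rw [hdet2, P.ord_mul (zpow_ne_zero _ hlam) hdet', P.ord_zpow, hlamP] at key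
  have hord : ∀ a ∈ S, P.ord (eval x (F a)) - d a * pord P x ≤
      P.ord (eval x' (F a)) + 1 - 1 - q := by
    intro a ha
    have h1 : eval x (F a) = lam ^ d a * eval x' (F a) := by
      rw [hxx, eval_smul_hom (hom a)]
    have h0 : eval x' (F a) ≠ 0 := by
      intro h
      apply hS0 a ha
      rw [h1, h, mul_zero]
    rw [h1, P.ord_mul (pow_ne_zero _ hlam) h0, P.ord_pow, hlamP]
    linarith
  have hsum := Finset.sum_le_sum hord
  have hTq : (T.card : ℤ) * q = 0 := by rw [hq, mul_zero]
  rw [hTq] at key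
  rw [← hb]
  linarith

end Pool.Agent.H70LB
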