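import Pool.Agent.Y735.LB.Stm
import Pool.Agent.H70LB.Loc

/-!
The height inequality with derivations which are regular in the logarithmic sense at the places at
which the point meets the hypersurfaces.
-/

set_option autoImplicit false

open MvPolynomial FF Pool.Agent.W603.LV Pool.Agent.W603.PV Pool.Agent.TH145.GH

namespace Pool.Agent.H70LB

open Pool.Agent.TH812.GV Pool.Agent.TH812.GV2

theorem s_ineq : Pool.Agent.Y735.LB.S_INEQ := by
  classical
  intro k K _ _ _ _ _ _ n α _ F d D ep q e hS x hx0 m W hWm hxW hDW hP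
  obtain ⟨l0, hl0⟩ := Function.ne_iff.1 hx0
  have hl0' : x l0 ≠ 0 := hl0
  obtain ⟨v, hdet, hv⟩ := exists_adapted (gw d D x l0) Gn.lev span_gw
  obtain ⟨t0, ht0⟩ := sel_x hx0 hdet hv
  have hselv := sel_v2 hS hl0' hdet hv
  have hT := card_T hdet W hWm hxW hDW
  obtain ⟨S, hSd⟩ : ∃ S : Finset α, S = Finset.univ.filter fun a => ∀ t, v t ≠ Gn.v a := ⟨_, rfl⟩
  have hSv : ∀ a ∈ S, ∀ t, v t ≠ Gn.v a := fun a ha => by
    rw [hSd, Finset.mem_filter] at ha
    exact ha.2
  have hS0 : ∀ a ∈ S, eval x (F a) ≠ 0 := by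
    intro a ha h0
    obtain ⟨t, ht⟩ := hselv a h0
    exact hSv a ha t ht
  have hwt := sum_wt (d := d) ht0 hT S (fun a ha => by
    rw [hSd, Finset.mem_filter, not_and] at ha
    have := ha (Finset.mem_univ _)
    push Not at this
    exact this)
  obtain ⟨w, hw⟩ : ∃ w : ℤ, w = ∑ t, (v t).wt d := ⟨_, rfl⟩
  obtain ⟨Θ, hΘ⟩ : ∃ Θ, Θ = (Matrix.of fun t => gw d D x l0 (v t)).det /
    ∏ a ∈ S, eval x (F a) := ⟨_, rfl⟩
  have hprod0 : ∏ a ∈ S, eval x (F a) ≠ 0 := Finset.prod_ne_zero_iff.2 hS0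
  have hΘ0 : Θ ≠ 0 := by
    rw [hΘ]; exact div_ne_zero hdet hprod0
  have hordprod : ∀ (P : Place k K) (s : Finset α), (∀ a ∈ s, eval x (F a) ≠ 0) →
      P.ord (∏ a ∈ s, eval x (F a)) = ∑ a ∈ s, P.ord (eval x (F a)) := by
    intro P s
    induction s using Finset.induction_on with
    | empty => intro _; simp [P.ord_one]
    | insert a s ha ih =>
      intro h
      rw [Finset.prod_insert ha, Finset.sum_insert ha, P.ord_mul (h a (Finset.mem_insert_self _ _))
        (Finset.prod_ne_zero_iff.2 fun b hb => h b (Finset.mem_insert_of_mem hb)),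
        ih fun b hb => h b (Finset.mem_insert_of_mem hb)]
  -- the local inequality
  have hloc : ∀ P : Place k K, (w - ∑ a ∈ S, (d a : ℤ)) * pord P x -
      (e P + ((Finset.univ.filter fun a => eval x (F a) ≠ 0).card + m + 2) * q P) ≤
      P.ord Θ := by
    intro P
    have hq0 := hS.qnn P
    have he0 := hS.enn P
    have h2 : P.ord Θ = P.ord (Matrix.of fun t => gw d D x l0 (v t)).det -
        ∑ a ∈ S, P.ord (eval x (F a)) := by
      rw [hΘ, P.ord_div hdet hprod0, hordprod P S hS0]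
    have h4 : ∑ a ∈ S, P.ord (eval x (F a)) = ∑ a ∈ S, (P.ord (eval x (F a)) - d a * pord P x) +
        (∑ a ∈ S, (d a : ℤ)) * pord P x := by
      rw [Finset.sum_mul, ← Finset.sum_add_distrib]
      exact Finset.sum_congr rfl fun a _ => by ring
    have h7 : 0 ≤ ((Finset.univ.filter fun a => eval x (F a) ≠ 0).card : ℤ) * q P :=
      mul_nonneg (Nat.cast_nonneg _) hq0
    have h8 : 0 ≤ ((m : ℤ) + 2) * q P := mul_nonneg (by positivity) hq0
    have h9 : (((Finset.univ.filter fun a => eval x (F a) ≠ 0).card : ℤ) + m + 2) * q P =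
        (Finset.univ.filter fun a => eval x (F a) ≠ 0).card * q P + (m + 2) * q P := by
      ring
    rw [h2, h9, sub_mul]
    rcases hP P with h | h
    · have h1 := local_ge2 hS hl0' v hdet hv hT ∅ (fun a ha => absurd ha (Finset.notMem_empty a))
        (fun a ha => absurd ha (Finset.notMem_empty a)) P
      rw [← hw, Finset.sum_empty, if_pos rfl] at h1
      have h3 : ∑ a ∈ S, (P.ord (eval x (F a)) - d a * pord P x) ≤ 0 :=
        Finset.sum_nonpos fun a ha => by
          have := h a (hS0 a ha)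
          linarith
      linarith
    · have h1 := local_log hS.hom hS.dual P h hl0' v hdet hv S hSv hS0
      rw [← hw] at h1
      linarith
  -- summation
  obtain ⟨C, hC⟩ : ∃ C : Place k K → ℤ, ∀ P, C P =
        e P + ((Finset.univ.filter fun a => eval x (F a) ≠ 0).card + m + 2) * q P :=
    ⟨_, fun _ => rfl⟩
  have hp := pord_finite (k := k) (Function.ne_iff.1 hx0)
  have hCfin : {P | C P ≠ 0}.Finite := by
    refine (hS.qfin.union hS.efin).subset fun P hP => ?_
    by_contra hcon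
    simp only [Set.mem_union, Set.mem_ofPred_eq, not_or, not_not] at hcon
    obtain ⟨h4, h4'⟩ := hcon
    apply hP
    rw [hC, h4, h4', mul_zero, add_zero]
  obtain ⟨T1, hT1⟩ := exists_supp (k := k) (Finset.univ : Finset Unit) (fun _ => Θ)
  obtain ⟨U, hU⟩ : ∃ U : Finset (Place k K), U = T1 ∪ (hp.toFinset ∪ hCfin.toFinset) := ⟨_, rfl⟩
  have g1 : ∑ P ∈ U, P.ord Θ = 0 := sum_ord_finset _ _ fun P hP => by
    rw [hU]; exact Finset.mem_union_left _ (hT1 () (Finset.mem_univ _) P hP)
  have g2 : pht k x = - ∑ P ∈ U, pord P x := by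
    unfold pht
    rw [finsum_eq_sum_of_support_subset (s := U)]
    intro P hP
    rw [hU]
    exact Finset.mem_union_right _ (Finset.mem_union_left _ (hp.mem_toFinset.2 hP))
  have g3 : ∑ᶠ P, C P = ∑ P ∈ U, C P := by
    rw [finsum_eq_sum_of_support_subset (s := U)]
    intro P hP
    rw [hU]
    exact Finset.mem_union_right _ (Finset.mem_union_right _ (hCfin.mem_toFinset.2 hP))
  have g4 := Finset.sum_le_sum (s := U) fun P _ => hloc P
  rw [Finset.sum_sub_distrib, ← Finset.mul_sum, g1] at g4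
  simp only [← hC] at g4
  rw [← g3] at g4
  have hpht : 0 ≤ pht k x :=
    (hgt_nonneg _).trans (Pool.Agent.W603.CX.hgt_le_pht (k := k) x hl0 hl0)
  have g5 : (∑ a ∈ S, (d a : ℤ) - w) * pht k x ≤ ∑ᶠ P, C P := by
    have : (w - ∑ a ∈ S, (d a : ℤ)) * ∑ P ∈ U, pord P x =
        (∑ a ∈ S, (d a : ℤ) - w) * pht k x := by rw [g2]; ring
    rw [this] at g4
    linarith
  have g6 : (∑ a, (d a : ℤ)) + ((Finset.univ.filter fun a => eval x (F a) = 0).card : ℤ) -
      2 * m - 1 ≤ ∑ a ∈ S, (d a : ℤ) - w := by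
    have h1 : ∑ a ∈ S, (d a : ℤ) + ∑ a ∈ Sᶜ, (d a : ℤ) = ∑ a, (d a : ℤ) :=
      Finset.sum_add_sum_compl S _
    have h2 : ∑ a ∈ Sᶜ, ((d a : ℤ) + 1) = ∑ a ∈ Sᶜ, (d a : ℤ) + Sᶜ.card := by
      rw [Finset.sum_add_distrib]
      simp
    have h3 : ((Finset.univ.filter fun a => eval x (F a) = 0).card : ℤ) ≤ Sᶜ.card := by
      have : (Finset.univ.filter fun a => eval x (F a) = 0) ⊆ Sᶜ := by
        intro a ha
        rw [Finset.mem_compl]
        intro haS
        exact hS0 a haS (Finset.mem_filter.1 ha).2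
      exact_mod_cast Finset.card_le_card this
    rw [h2] at hwt
    rw [hw]
    linarith
  simp only [← hC]
  exact (mul_le_mul_of_nonneg_right g6 hpht).trans g5

end Pool.Agent.H70LB
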