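import Pool.Agent.Y735.LB.Stm

/-!
Limits of integral elements of bounded height.
-/

set_option autoImplicit false

open FF Pool.Agent.W603.LV Pool.Agent.W602.RG MvPolynomial Pool.Agent.TH145.GH

namespace Pool.Agent.H70LB

variable {k0 K ι : Type} [Field k0] [Field K] [Algebra k0 K] [CharZero K] [IsAlgClosed K]
  {y : ι → K} (E : IntermediateField (IntermediateField.adjoin k0 (Set.range y)) K)

omit [CharZero K] [IsAlgClosed K] in
/-- Integral elements over a finitely generated ring have bounded denominators up to powers. -/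
theorem int_of_int {A : Subalgebra k0 K} {h : A} {T : Finset K}
    (hT : ∀ t ∈ T, IsIntegral A (h • t)) {w : K}
    (hw : IsIntegral (Subring.closure (Set.range (algebraMap k0 K) ∪ (T : Set K))) w) :
    ∃ r : ℕ, IsIntegral A (h ^ r • w) := by
  obtain ⟨p, hp, hpw⟩ := hw
  have h1 : ∀ i, ∃ r : ℕ, IsIntegral A (h ^ r • (p.coeff i : K)) := fun i =>
    int_of_closure hT (p.coeff i).2
  choose r hr using h1
  obtain ⟨N, hN⟩ : ∃ N, N = ∑ i ∈ Finset.range (p.natDegree + 1), r i := ⟨_, rfl⟩
  refine ⟨N, ?_⟩
  obtain ⟨p', hp'⟩ : ∃ p' : Polynomial K, p' = p.map (algebraMap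
    (Subring.closure (Set.range (algebraMap k0 K) ∪ (T : Set K))) K) := ⟨_, rfl⟩
  have hm : p'.Monic := by rw [hp']; exact hp.map _
  have hd : p'.natDegree = p.natDegree := by rw [hp']; exact hp.natDegree_map _
  have hw0 : p'.eval w = 0 := by rw [hp', Polynomial.eval_map]; exact hpw
  have hroot : (p'.scaleRoots ((h : K) ^ N)).eval (h ^ N • w) = 0 := by
    have h2 := Polynomial.scaleRoots_eval₂_mul (p := p') (RingHom.id K) w ((h : K) ^ N)
    rw [Polynomial.eval₂_id, Polynomial.eval₂_id, hw0, mul_zero] at h2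
    exact h2
  have hd0 : p'.natDegree ≠ 0 := by
    intro h0
    have h2 := Polynomial.eq_one_of_monic_natDegree_zero hm h0
    rw [h2, Polynomial.eval_one] at hw0
    exact one_ne_zero hw0
  refine IsIntegral.of_aeval_monic_of_isIntegral_coeff (p := p'.scaleRoots ((h : K) ^ N))
    ((Polynomial.monic_scaleRoots_iff _).2 hm) ?_ ?_ fun i => ?_
  · rwa [Polynomial.natDegree_scaleRoots]
  · rw [hroot]; exact isIntegral_zero
  · rw [Polynomial.coeff_scaleRoots]
    rcases lt_trichotomy i p'.natDegree with hi | hi | hi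
    · have h2 : r i ≤ N * (p'.natDegree - i) := by
        have h3 : r i ≤ N := by
          rw [hN]
          exact Finset.single_le_sum (f := r) (fun _ _ => Nat.zero_le _)
            (Finset.mem_range.2 (by omega))
        exact h3.trans (Nat.le_mul_of_pos_right _ (by omega))
      obtain ⟨s, hs⟩ := Nat.exists_eq_add_of_le h2
      have h4 : p'.coeff i * ((h : K) ^ N) ^ (p'.natDegree - i) =
          h ^ s • (h ^ r i • (p.coeff i : K)) := by
        have h5 : p'.coeff i = (p.coeff i : K) := by
          rw [hp', Polynomial.coeff_map]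
          rfl
        rw [← pow_mul, hs, h5]
        change _ = (h : K) ^ s * ((h : K) ^ r i * (p.coeff i : K))
        ring
      rw [h4]
      exact (hr i).smul _
    · rw [hi, Nat.sub_self, pow_zero, mul_one, hm.coeff_natDegree]
      exact isIntegral_one
    · rw [Polynomial.coeff_eq_zero_of_natDegree_lt hi, zero_mul]
      exact isIntegral_zero

omit [CharZero K] [IsAlgClosed K] in
open IntermediateField.algebraAdjoinAdjoin in
/-- The coordinates of elements of a finitely generated ring. -/
theorem den_of_int2 (hy : IsTranscendenceBasis k0 y)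
    [FiniteDimensional (IntermediateField.adjoin k0 (Set.range y)) E]
    {T : Finset K} {J : Type} [Finite J] (b : J → E) :
    ∃ h : MvPolynomial ι k0, h ≠ 0 ∧ ∀ (f : E) (j : J),
      IsIntegral (Subring.closure (Set.range (algebraMap k0 K) ∪ (T : Set K))) (f : K) →
      ∀ p q : MvPolynomial ι k0, IsRelPrime p q → aeval y q ≠ 0 → aeval y p / aeval y q =
        ((Algebra.trace (IntermediateField.adjoin k0 (Set.range y)) E (f * b j) :
          IntermediateField.adjoin k0 (Set.range y)) : K) → ∃ r : ℕ, q ∣ h ^ r := by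
  classical
  have hinj : Function.Injective (aeval y : MvPolynomial ι k0 →ₐ[k0] K) := hy.1
  have halg : Algebra.IsAlgebraic (Algebra.adjoin k0 (Set.range y)) K := hy.isAlgebraic
  have hrange : ∀ a : Algebra.adjoin k0 (Set.range y),
      ∃ a' : MvPolynomial ι k0, aeval y a' = (a : K) := by
    rintro ⟨a, ha⟩
    rw [Algebra.adjoin_range_eq_range_aeval] at ha
    exact ha
  have hUFD : IsIntegrallyClosed (Algebra.adjoin k0 (Set.range y)) := by
    have e : MvPolynomial ι k0 ≃ₐ[k0] Algebra.adjoin k0 (Set.range y) := hy.1.aevalEquiv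
    exact IsIntegrallyClosed.of_equiv e.toRingEquiv
  have := Fintype.ofFinite J
  obtain ⟨h, hh0, hh⟩ := Algebra.IsAlgebraic.exists_integral_multiples
    (R := Algebra.adjoin k0 (Set.range y)) (A := K) (T ∪ Finset.univ.image fun j => (b j : K))
  obtain ⟨h', hh'⟩ := hrange h
  refine ⟨h', ?_, ?_⟩
  · rintro rfl
    rw [map_zero] at hh'
    exact hh0 (Subtype.ext hh'.symm)
  intro f j hf p q hpq hq0 hc
  obtain ⟨r, hr⟩ := int_of_int (A := Algebra.adjoin k0 (Set.range y)) (h := h)
    (fun t ht => hh t (Finset.mem_union_left _ ht)) hf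
  have hbj : IsIntegral (Algebra.adjoin k0 (Set.range y)) (h • (b j : K)) :=
    hh _ (Finset.mem_union_right _ (Finset.mem_image_of_mem _ (Finset.mem_univ j)))
  have hst : IsScalarTower (Algebra.adjoin k0 (Set.range y)) E K :=
    IsScalarTower.of_algebraMap_eq fun _ => rfl
  have h1 : IsIntegral (Algebra.adjoin k0 (Set.range y)) (h ^ (r + 1) • (f * b j : E)) := by
    rw [← isIntegral_algebraMap_iff (B := K) (algebraMap E K).injective]
    have h2 : algebraMap E K (h ^ (r + 1) • (f * b j : E)) =
        (h ^ r • (f : K)) * (h • (b j : K)) := by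
      rw [smul_mul_smul_comm, ← pow_succ]
      rfl
    rw [h2]
    exact hr.mul hbj
  obtain ⟨g, hg⟩ := trace_int (R := IntermediateField.adjoin k0 (Set.range y)) (h ^ (r + 1))
    (f * b j : E) h1
  obtain ⟨g', hg'⟩ := hrange g
  have h3 : (g : K) = (h : K) ^ (r + 1) *
      ((Algebra.trace (IntermediateField.adjoin k0 (Set.range y)) E (f * b j) :
        IntermediateField.adjoin k0 (Set.range y)) : K) := by
    have h5 := congrArg (fun z : IntermediateField.adjoin k0 (Set.range y) => (z : K)) hg
    exact h5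
  rw [← hc, ← hg', ← hh', mul_div_assoc'] at h3
  rw [eq_div_iff hq0, ← map_pow, ← map_mul, ← map_mul] at h3
  have h4 := hinj h3
  refine ⟨r + 1, ?_⟩
  have h5 : q ∣ h' ^ (r + 1) * p := ⟨g', by rw [← h4]; ring⟩
  exact IsRelPrime.dvd_of_dvd_mul_right hpq.symm h5

theorem s_lim : Pool.Agent.Y735.LB.S_LIM := by
  intro k0 K ι _ _ _ _ _ y E hy _ _ _ T f hf B hB
  classical
  have := Fintype.ofFinite ι
  have hinj : Function.Injective (aeval y : MvPolynomial ι k0 →ₐ[k0] K) := hy.1
  let b := Module.finBasis (IntermediateField.adjoin k0 (Set.range y)) E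
  obtain ⟨N, p, q, hpq, hq0, hqy, hp, hq, hc, hf'⟩ := exists_coord E hy b f B hB
  obtain ⟨h, hh0, hh⟩ := den_of_int2 E hy (T := T) (fun j => b j)
  obtain ⟨N0, hN0⟩ : ∃ N0 : ℕ, N0 = Fintype.card ι * N := ⟨_, rfl⟩
  have hqd : ∀ j m, q j m ∣ h ^ N0 := by
    intro j m
    obtain ⟨r, hr⟩ := hh (f m) j (hf m) (p j m) (q j m) (hpq j m) (hqy j m) (hc j m)
    refine dvd_pow_deg N0 (q j m) (hq0 j m) ?_ hr
    rw [hN0]
    refine (totalDegree_le_sum _).trans ?_
    refine (Finset.sum_le_sum fun i _ => hq j m i).trans ?_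
    rw [Finset.sum_const, Finset.card_univ, smul_eq_mul]
  choose s hs using hqd
  have hs0 : ∀ j m, s j m ≠ 0 := by
    intro j m h0
    have h1 := hs j m
    rw [h0, mul_zero] at h1
    exact pow_ne_zero N0 hh0 h1
  have hsd : ∀ j m i, (s j m).degreeOf i ≤ N0 * h.degreeOf i := by
    intro j m i
    have h1 := congrArg (degreeOf i) (hs j m)
    rw [degreeOf_mul_eq (hq0 j m) (hs0 j m), degreeOf_pow_eq _ _ _ hh0] at h1
    omega
  have hh1 : aeval y h ≠ 0 := (map_ne_zero_iff _ hinj).2 hh0
  have h1 : ∀ j, Om.mk (fun m => aeval y (p j m) / aeval y (q j m)) ∈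
      Subring.closure (Set.range (mapOm k0 K) ∪ cst K '' (E : Set K)) := by
    intro j
    have h2 : (fun m => aeval y (p j m) / aeval y (q j m)) =
        fun m => aeval y (p j m * s j m) * (aeval y (h ^ N0))⁻¹ := by
      funext m
      rw [hs j m, map_mul, map_mul]
      have h3 : aeval y (s j m) ≠ 0 := (map_ne_zero_iff _ hinj).2 (hs0 j m)
      have h4 := hqy j m
      field_simp
    rw [h2, ← Om.mk_mul]
    refine mul_mem ?_ (Subring.subset_closure (Or.inr ⟨(aeval y (h ^ N0))⁻¹, ?_, rfl⟩))
    · have h3 := poly_mem y (N + ∑ i, N0 * h.degreeOf i) (fun m => p j m * s j m) fun m i => by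
        refine (degreeOf_mul_le i _ _).trans (add_le_add (hp j m i) ((hsd j m i).trans ?_))
        exact Finset.single_le_sum (f := fun i => N0 * h.degreeOf i) (fun _ _ => Nat.zero_le _)
          (Finset.mem_univ i)
      refine Subring.closure_mono ?_ h3
      refine Set.union_subset_union_right _ (Set.image_mono ?_)
      rintro _ ⟨i, rfl⟩
      exact y_mem E i
    · refine inv_mem ?_
      have h3 : ∀ c : MvPolynomial ι k0, aeval y c ∈ E := by
        intro c
        have h4 : aeval y c ∈ IntermediateField.adjoin k0 (Set.range y) :=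
          IntermediateField.algebra_adjoin_le_adjoin k0 _ (by
            rw [Algebra.adjoin_range_eq_range_aeval]
            exact ⟨c, rfl⟩)
        exact E.algebraMap_mem ⟨_, h4⟩
      exact h3 _
  have h2 : (fun m => (f m : K)) =
      fun m => ∑ j, aeval y (p j m) / aeval y (q j m) * ((b.traceDual j : E) : K) := funext hf'
  rw [h2, Pool.Agent.W61.RG.GSP.mk_sum Finset.univ
    (fun j m => aeval y (p j m) / aeval y (q j m) * ((b.traceDual j : E) : K))]
  refine sum_mem fun j _ => ?_
  rw [← Om.mk_mul]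
  exact mul_mem (h1 j) (Subring.subset_closure (Or.inr ⟨_, (b.traceDual j).2, rfl⟩))

end Pool.Agent.H70LB
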